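import Mathlib

/-!
# MP_ca7d6d_co: definitions and rows (helper11)

Proof in the team doc front2/MP_ca7d6d_co_11. `Rec` = a record family, seen as a finite set `Ω` with values `v ω : Fin m → ℕ`;
`patt v S` = the pattern on `S`, `gp v S x` = the gap of `x` among `S`; `Sf e s` = the first `s` elements of the ordering `e`
(`e x` = the time of `x`).
-/

set_option autoImplicit false

open Finset
open scoped Classical

namespace Pool.Agent.CAZ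

/-- number of members with the same information -/
noncomputable def cnt {α β : Type} (Ω : Finset α) (A : α → β) (ω : α) : ℕ :=
  (Ω.filter (fun ω' => A ω' = A ω)).card

/-- entropy of the information `A` under the uniform law on `Ω` -/
noncomputable def ent {α β : Type} (Ω : Finset α) (A : α → β) : ℝ :=
  (∑ ω ∈ Ω, Real.log ((Ω.card : ℝ) / (cnt Ω A ω : ℝ))) / (Ω.card : ℝ)

/-- the pattern on `S` -/
def patt {α : Type} {m : ℕ} (v : α → Fin m → ℕ) (S : Finset (Fin m)) (ω : α) : Fin m → Fin m → Prop :=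
  fun i j => i ∈ S ∧ j ∈ S ∧ v ω i < v ω j

/-- the gap of `x` among `S` -/
noncomputable def gp {α : Type} {m : ℕ} (v : α → Fin m → ℕ) (S : Finset (Fin m)) (x : Fin m) (ω : α) : ℕ :=
  (S.filter (fun y => v ω y < v ω x)).card

theorem gp_lt {α : Type} {m : ℕ} (v : α → Fin m → ℕ) (S : Finset (Fin m)) (x : Fin m) (ω : α) :
    gp v S x ω < S.card + 1 := Nat.lt_succ_of_le (card_filter_le _ _)

/-- the gap as an element of `Fin (S.card + 1)` -/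
noncomputable def gpF {α : Type} {m : ℕ} (v : α → Fin m → ℕ) (S : Finset (Fin m)) (x : Fin m) (ω : α) :
    Fin (S.card + 1) := ⟨gp v S x ω, gp_lt v S x ω⟩

/-- entropy of the pattern on `S` -/
noncomputable def hh {α : Type} {m : ℕ} (Ω : Finset α) (v : α → Fin m → ℕ) (S : Finset (Fin m)) : ℝ :=
  ent Ω (patt v S)

/-- a record family: `|Ω| ≥ exp (h m)`, at most `exp (h |S|)` patterns on every `S` -/
structure Rec {α : Type} (h : ℝ) {m : ℕ} (Ω : Finset α) (v : α → Fin m → ℕ) : Prop where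
  ne : Ω.Nonempty
  inj : ∀ ω ∈ Ω, Function.Injective (v ω)
  top : h * m ≤ Real.log Ω.card
  sep : ∀ ω ∈ Ω, ∀ ω' ∈ Ω, patt v univ ω = patt v univ ω' → ω = ω'
  her : ∀ S : Finset (Fin m), Real.log ((Ω.image (patt v S)).card : ℝ) ≤ h * S.card

/-- the first `s` elements of the ordering `e` -/
noncomputable def Sf {m : ℕ} (e : Equiv.Perm (Fin m)) (s : ℕ) : Finset (Fin m) :=
  univ.filter (fun z => (e z).val < s)

/-- the `d` elements after the first `s` ones -/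
def cl {m : ℕ} (e : Equiv.Perm (Fin m)) (s d : ℕ) (hsd : s + d ≤ m) (i : Fin d) : Fin m :=
  e.symm ⟨s + i.val, by have := i.isLt; omega⟩

/-- mean over the orderings of the entropy of the pattern on the first `s` elements -/
noncomputable def phi {α : Type} {m : ℕ} (Ω : Finset α) (v : α → Fin m → ℕ) (s : ℕ) : ℝ :=
  (∑ e : Equiv.Perm (Fin m), hh Ω v (Sf e s)) / (Nat.factorial m : ℝ)

/-- two elements in the same gap of `S` -/
def same {α : Type} {m : ℕ} (v : α → Fin m → ℕ) (S : Finset (Fin m)) (ω : α) (x y : Fin m) : Prop :=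
  gp v S x ω = gp v S y ω

/-! ## entropy base (row E) -/

/-- E1 -/
def EntCard : Prop := ∀ (α β : Type) (Ω : Finset α) (A : α → β), Ω.Nonempty →
  ent Ω A ≤ Real.log ((Ω.image A).card : ℝ)

/-- E2 -/
def EntMono : Prop := ∀ (α β γ : Type) (Ω : Finset α) (A : α → β) (B : α → γ),
  (∀ ω ∈ Ω, ∀ ω' ∈ Ω, A ω = A ω' → B ω = B ω') → ent Ω B ≤ ent Ω A

/-- E3 -/
def EntCongr : Prop := ∀ (α β γ : Type) (Ω : Finset α) (A : α → β) (B : α → γ),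
  (∀ ω ∈ Ω, ∀ ω' ∈ Ω, (A ω = A ω' ↔ B ω = B ω')) → ent Ω A = ent Ω B

/-- E4: at most `k ω` values of `A` on the fibre of `B` -/
def EntRef : Prop := ∀ (α β γ : Type) (Ω : Finset α) (A : α → β) (B : α → γ) (k : α → ℝ), Ω.Nonempty →
  (∀ ω ∈ Ω, (((Ω.filter (fun ω' => B ω' = B ω)).image A).card : ℝ) ≤ k ω) →
  ent Ω (fun ω => (A ω, B ω)) ≤ ent Ω B + (∑ ω ∈ Ω, Real.log (k ω)) / (Ω.card : ℝ)

/-- E5: submodularity -/
def EntSub : Prop := ∀ (α β γ δ : Type) (Ω : Finset α) (A : α → β) (B : α → γ) (C : α → δ),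
  ent Ω (fun ω => (A ω, B ω, C ω)) + ent Ω B ≤ ent Ω (fun ω => (A ω, B ω)) + ent Ω (fun ω => (B ω, C ω))

/-! ## kernel lemmas (row K) -/

/-- K1: pattern on `insert x S` = pattern on `S` and gap of `x` -/
def KerStmt : Prop := ∀ (α : Type) (m : ℕ) (v : α → Fin m → ℕ) (S : Finset (Fin m)) (x : Fin m) (ω ω' : α),
  Function.Injective (v ω) → Function.Injective (v ω') → x ∉ S →
  (patt v (insert x S) ω = patt v (insert x S) ω' ↔ patt v S ω = patt v S ω' ∧ gp v S x ω = gp v S x ω')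

/-- K2: the pattern on `S'` and the coarse gap (among `S ⊆ S'`) leave at most `1 + #` fine gaps -/
def KerGap : Prop := ∀ (α : Type) (m : ℕ) (Ω : Finset α) (v : α → Fin m → ℕ) (S S' : Finset (Fin m)) (x : Fin m) (ω : α),
  (∀ ω ∈ Ω, Function.Injective (v ω)) → ω ∈ Ω → S ⊆ S' → x ∉ S' →
  ((Ω.filter (fun ω' => patt v S' ω' = patt v S' ω ∧ gp v S x ω' = gp v S x ω)).image (gp v S' x)).card
    ≤ 1 + ((S' \ S).filter (fun y => same v S ω y x)).card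

/-- K3: the pattern on `S` and the gaps of the elements `c i` leave at most `2 ^ #pairs` patterns on the union -/
def KerPair : Prop := ∀ (α : Type) (m d : ℕ) (Ω : Finset α) (v : α → Fin m → ℕ) (S : Finset (Fin m)) (c : Fin d → Fin m)
  (ω : α), (∀ ω ∈ Ω, Function.Injective (v ω)) → ω ∈ Ω → Function.Injective c → (∀ i, c i ∉ S) →
  ((Ω.filter (fun ω' => patt v S ω' = patt v S ω ∧ ∀ i, gp v S (c i) ω' = gp v S (c i) ω)).image
      (patt v (S ∪ univ.image c))).card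
    ≤ 2 ^ ((univ : Finset (Fin d × Fin d)).filter (fun q => q.1 < q.2 ∧ same v S ω (c q.1) (c q.2))).card

/-! ## adjacency (row A) -/

/-- two given later elements are in the same gap of the first `s` with probability at most `2 / (s + 1)` -/
def AdjStmt : Prop := ∀ (α : Type) (m : ℕ) (v : α → Fin m → ℕ) (ω : α) (s : ℕ) (a b : Fin m),
  Function.Injective (v ω) → s ≤ a.val → s ≤ b.val → a ≠ b →
  (s + 1) * ((univ : Finset (Equiv.Perm (Fin m))).filter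
    (fun e => same v (Sf e s) ω (e.symm a) (e.symm b))).card ≤ 2 * Nat.factorial m

/-! ## the profile (row P) -/

/-- P1 symmetry -/
def SymStmt : Prop := ∀ (α : Type) (m : ℕ) (Ω : Finset α) (v : α → Fin m → ℕ) (s : ℕ) (j : Fin m), s ≤ j.val →
  (∑ e : Equiv.Perm (Fin m), hh Ω v (insert (e.symm j) (Sf e s))) / (Nat.factorial m : ℝ) = phi Ω v (s + 1)

/-- P2 the profile of a record family -/
def PhiStmt : Prop := ∀ (α : Type) (m : ℕ) (Ω : Finset α) (v : α → Fin m → ℕ) (h : ℝ), Rec h Ω v →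
  phi Ω v 0 = 0 ∧ h * m ≤ phi Ω v m ∧ (∀ s : ℕ, s ≤ m → phi Ω v s ≤ h * s) ∧
  ∀ s s' : ℕ, 1 ≤ s → s ≤ s' → s' < m →
    phi Ω v (s' + 1) - phi Ω v s' ≤ phi Ω v (s + 1) - phi Ω v s + Real.log (2 * s' / s)

/-! ## numbers (row W) -/

/-- choice of the scale -/
def NumStmt : Prop := ∀ ε : ℝ, 0 < ε → ∀ K1 t : ℕ, 0 < K1 → 0 < t → ∃ h0 : ℝ, 0 < h0 ∧ ∀ h : ℝ, h0 ≤ h →
  ∀ m : ℕ, Real.exp h ≤ m → ∀ Φ : ℕ → ℝ, Φ 0 = 0 → h * m ≤ Φ m → (∀ s : ℕ, s ≤ m → Φ s ≤ h * s) →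
  (∀ s s' : ℕ, 1 ≤ s → s ≤ s' → s' < m → Φ (s' + 1) - Φ s' ≤ Φ (s + 1) - Φ s + Real.log (2 * s' / s)) →
  ∃ s d g : ℕ, 1 ≤ s ∧ 0 < d ∧ s + d ≤ m ∧ d ≤ s + 1 ∧ 0 < g ∧ (s / g + 1) * t ≤ d ∧
    (d : ℝ) * (Φ (s + 1) - Φ s) - (Φ (s + d) - Φ s) + (d : ℝ) ^ 2 / (s + 1) ≤ ε * d ∧
    h * (s + d) - Φ (s + d) + d * (2 + Real.log (K1 * g)) ≤ ε * h * d

/-! ## total correlation and atoms (rows T, S) -/

/-- the gaps of the columns -/
noncomputable def gv {α : Type} {m d : ℕ} (v : α → Fin m → ℕ) (S : Finset (Fin m)) (c : Fin d → Fin m) (ω : α) :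
    Fin d → Fin (S.card + 1) := fun i => gpF v S (c i) ω

/-- total correlation of the gaps of the columns given the pattern on `S` -/
noncomputable def TC {α : Type} {m d : ℕ} (Ω : Finset α) (v : α → Fin m → ℕ) (S : Finset (Fin m))
    (c : Fin d → Fin m) : ℝ :=
  (∑ i, (hh Ω v (insert (c i) S) - hh Ω v S)) - (ent Ω (fun ω => (patt v S ω, gv v S c ω)) - hh Ω v S)

/-- column `i` is atomic at `ω`: its coarse gap has conditional probability more than `1 / K1` -/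
def Atm {α : Type} {m d : ℕ} (Ω : Finset α) (v : α → Fin m → ℕ) (S : Finset (Fin m))
    (c : Fin d → Fin m) (K1 g : ℕ) (ω : α) (i : Fin d) : Prop :=
  cnt Ω (patt v S) ω < K1 * cnt Ω (fun ω' => (patt v S ω', gp v S (c i) ω' / g)) ω

/-- mean number of atomic columns -/
noncomputable def AT {α : Type} {m d : ℕ} (Ω : Finset α) (v : α → Fin m → ℕ) (S : Finset (Fin m))
    (c : Fin d → Fin m) (K1 g : ℕ) : ℝ :=
  (∑ ω ∈ Ω, (((univ : Finset (Fin d)).filter (fun i => Atm Ω v S c K1 g ω i)).card : ℝ)) / Ω.card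

/-- T: mean total correlation over the orderings -/
def TcStmt : Prop := ∀ (α : Type) (m : ℕ) (Ω : Finset α) (v : α → Fin m → ℕ) (h : ℝ), Rec h Ω v →
  ∀ (s d : ℕ) (hsd : s + d ≤ m),
  (∑ e : Equiv.Perm (Fin m), TC Ω v (Sf e s) (cl e s d hsd)) / (Nat.factorial m : ℝ)
    ≤ (d : ℝ) * (phi Ω v (s + 1) - phi Ω v s) - (phi Ω v (s + d) - phi Ω v s) + (d : ℝ) ^ 2 / (s + 1)

/-- S: mean number of atomic columns over the orderings -/
def AtStmt : Prop := ∀ (α : Type) (m : ℕ) (Ω : Finset α) (v : α → Fin m → ℕ) (h : ℝ), 0 ≤ h → Rec h Ω v →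
  ∀ (s d : ℕ) (hsd : s + d ≤ m) (K1 g : ℕ), d ≤ s + 1 → 0 < K1 → 0 < g →
  h * ((∑ e : Equiv.Perm (Fin m), AT Ω v (Sf e s) (cl e s d hsd) K1 g) / (Nat.factorial m : ℝ))
    ≤ h * (s + d) - phi Ω v (s + d) + d * (2 + Real.log (K1 * g))

/-- choice of the fibre (row F): a fibre with small total correlation and few atoms carries a large product law -/
def FibStmt : Prop := ∀ (α : Type) (m d : ℕ) (Ω : Finset α) (v : α → Fin m → ℕ) (S : Finset (Fin m))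
  (c : Fin d → Fin m) (K1 g : ℕ) (A B : ℝ), Ω.Nonempty → (∀ ω ∈ Ω, Function.Injective (v ω)) → (∀ i, c i ∉ S) →
  0 < A → 0 < B → TC Ω v S c / A + AT Ω v S c K1 g / B ≤ 2 →
  ∃ (Φ : Finset α) (p : Fin d → Fin (S.card + 1) → ℝ), Φ ⊆ Ω ∧ Φ.Nonempty ∧
    (∀ ω ∈ Φ, ∀ ω' ∈ Φ, patt v S ω = patt v S ω') ∧ (∀ x w, 0 ≤ p x w) ∧ (∀ x, ∑ w, p x w = 1) ∧
    Real.exp (-(2 * A)) ≤ ∑ f ∈ Φ.image (gv v S c), ∏ x, p x (f x) ∧
    (∑ x, ∑ w ∈ univ.filter (fun w : Fin (S.card + 1) =>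
      1 < (K1 : ℝ) * ∑ u ∈ univ.filter (fun u : Fin (S.card + 1) => u.val / g = w.val / g), p x u), p x w) ≤ 2 * B

/-- the core: a record family with large `h` has a fibre whose gaps carry a spread product law -/
def CoreStmt : Prop := ∀ ε : ℝ, 0 < ε → ∀ K1 t : ℕ, 0 < K1 → 0 < t → ∃ h0 : ℝ, 0 < h0 ∧ ∀ h : ℝ, h0 ≤ h →
  ∀ (α : Type) (m : ℕ) (Ω : Finset α) (v : α → Fin m → ℕ), 0 < m → Rec h Ω v →
  ∃ (S : Finset (Fin m)) (d g : ℕ) (c : Fin d → Fin m) (Φ : Finset α) (p : Fin d → Fin (S.card + 1) → ℝ),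
    0 < d ∧ 0 < g ∧ (S.card / g + 1) * t ≤ d ∧ Function.Injective c ∧ (∀ i, c i ∉ S) ∧ Φ ⊆ Ω ∧ Φ.Nonempty ∧
    (∀ ω ∈ Φ, ∀ ω' ∈ Φ, patt v S ω = patt v S ω') ∧ (∀ x w, 0 ≤ p x w) ∧ (∀ x, ∑ w, p x w = 1) ∧
    Real.exp (-(ε * d)) ≤ ∑ f ∈ Φ.image (gv v S c), ∏ x, p x (f x) ∧
    (∑ x, ∑ w ∈ univ.filter (fun w : Fin (S.card + 1) =>
      1 < (K1 : ℝ) * ∑ u ∈ univ.filter (fun u : Fin (S.card + 1) => u.val / g = w.val / g), p x u), p x w) ≤ ε * d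

/-! ## blow-up (row B) and hybrids (row H) -/

/-- Talagrand's induction -/
def BlowStmt : Prop := ∀ (d q : ℕ) (p : Fin d → Fin q → ℝ) (F : Finset (Fin d → Fin q))
  (D : (Fin d → Fin q) → ℕ) (θ : ℝ), (∀ x w, 0 ≤ p x w) → (∀ x, ∑ w, p x w = 1) → 0 ≤ θ →
  (∀ y, ∃ f ∈ F, hammingDist y f = D y) → (∀ y, ∀ f ∈ F, D y ≤ hammingDist y f) →
  (∑ f ∈ F, ∏ x, p x (f x)) * ∑ y, (∏ x, p x (y x)) * Real.exp (θ * D y)
    ≤ ((2 + Real.exp θ + Real.exp (-θ)) / 4) ^ d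

/-- mean Hamming distance -/
def MeanStmt : Prop := ∀ (d q : ℕ) (p : Fin d → Fin q → ℝ) (F : Finset (Fin d → Fin q))
  (D : (Fin d → Fin q) → ℕ) (ε : ℝ), (∀ x w, 0 ≤ p x w) → (∀ x, ∑ w, p x w = 1) → 0 < ε → ε ≤ 1 →
  (∀ y, ∃ f ∈ F, hammingDist y f = D y) → (∀ y, ∀ f ∈ F, D y ≤ hammingDist y f) →
  Real.exp (-(ε ^ 2 * d)) ≤ ∑ f ∈ F, ∏ x, p x (f x) →
  ∑ y, (∏ x, p x (y x)) * (D y : ℝ) ≤ 2 * ε * d

/-- hybrids of `K` independent samples on `N` rainbow columns -/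
def HybStmt : Prop := ∀ N K C : ℕ, 0 < N → 0 < K → ∃ ε : ℝ, 0 < ε ∧ ∃ K1 t : ℕ, 0 < K1 ∧ 0 < t ∧
  ∀ (d q a : ℕ) (p : Fin d → Fin q → ℝ) (F : Finset (Fin d → Fin q)) (cr : Fin q → ℕ)
    (Cfg : Finset (Fin d) → (Fin d → Fin K → Fin q) → Prop),
    0 < d → a * t ≤ d → (∀ w, cr w < a) → (∀ x w, 0 ≤ p x w) → (∀ x, ∑ w, p x w = 1) →
    Real.exp (-(ε * d)) ≤ ∑ f ∈ F, ∏ x, p x (f x) →
    (∑ x, ∑ w ∈ univ.filter (fun w : Fin q =>
      1 < (K1 : ℝ) * ∑ u ∈ univ.filter (fun u : Fin q => cr u = cr w), p x u), p x w) ≤ ε * d →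
    (∀ (Y : Fin d → Fin K → Fin q) (G : Finset (Fin d)), (∀ x ∈ G, Function.Injective (fun i => cr (Y x i))) →
        C * a < G.card → ∃ X : Finset (Fin d), X ⊆ G ∧ X.card = N ∧ Cfg X Y) →
    ∃ (Y : Fin d → Fin K → Fin q) (X : Finset (Fin d)), X.card = N ∧ Cfg X Y ∧
      ∀ c : Fin d → Fin K, ∃ f ∈ F, ∀ x ∈ X, f x = Y x (c x)

/-! ## the matrix theorem (row M) and full position (row U) -/

/-- combs: at most `2 (a - 1)` -/
def CombStmt : Prop := ∀ (a b : ℕ) (E : Fin b → Fin 4 → ℕ), (∀ x, StrictMono (E x)) → (∀ x i, E x i < a) →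
  (∀ x y : Fin b, x < y → ∀ i j : Fin 4, i ≠ j →
    ¬ (E y 0 ≤ E x i ∧ E x i ≤ E y 3 ∧ E y 0 ≤ E x j ∧ E x j ≤ E y 3)) → b ≤ 2 * (a - 1)

/-- the `N` shape -/
def MatStmt : Prop := ∀ (k : ℕ), 1 ≤ k → ∀ (ι : Type) (G : Finset ι) (a : ℕ) (E : ι → Finset ℕ),
  (∀ x ∈ G, 3 ^ (k - 1) + 2 ≤ (E x).card) → (∀ x ∈ G, ∀ r ∈ E x, r < a) → 2 * (k - 1) * (a - 1) < G.card →
  ∃ (x : Fin k → ι) (l m h : Fin k → ℕ), Function.Injective x ∧ (∀ i, x i ∈ G) ∧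
    (∀ i, l i ∈ E (x i) ∧ m i ∈ E (x i) ∧ h i ∈ E (x i)) ∧
    (∀ i j, i ≤ j → l i ≤ l j ∧ m j ≤ m i ∧ h i ≤ h j) ∧ (∀ i, l i < m i ∧ m i < h i)

/-- full position -/
def Full (K q d : ℕ) (col : Fin d → ℕ) (X : Finset (Fin d)) (Y : Fin d → Fin K → Fin q) : Prop :=
  (∃ l m h : Fin d → Fin K,
    (∀ x ∈ X, ∀ y ∈ X, Y x (l x) < Y y (m y) ∧ Y x (m x) < Y y (h y)) ∧
    ((∀ x ∈ X, ∀ y ∈ X, col x < col y → Y x (l x) < Y y (l y) ∧ Y x (h x) < Y y (h y)) ∨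
     (∀ x ∈ X, ∀ y ∈ X, col x < col y → Y y (l y) < Y x (l x) ∧ Y y (h y) < Y x (h x)))) ∨
  (∃ (r : Fin 6 → Fin q) (l : Fin 6 → Fin d → Fin K), StrictMono r ∧ ∀ x ∈ X, ∀ i, Y x (l i x) = r i)

/-- linear extremal function of full position -/
def FullStmt : Prop := ∀ N : ℕ, ∃ K C : ℕ, 0 < K ∧ ∀ (d q a : ℕ) (col : Fin d → ℕ) (cr : Fin q → ℕ)
  (Y : Fin d → Fin K → Fin q) (G : Finset (Fin d)), Function.Injective col → Monotone cr → (∀ w, cr w < a) →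
  (∀ x ∈ G, Function.Injective (fun i => cr (Y x i))) → C * a < G.card →
  ∃ X : Finset (Fin d), X ⊆ G ∧ X.card = N ∧ Full K q d col X Y

/-! ## witnesses (row Z) -/

/-- the condition of the problem at `X` -/
def AdmAt {n : ℕ} (P : Finset (Equiv.Perm (Fin n))) (X : Finset (Fin n)) : Prop :=
  ((∃ f : Fin 5 → Fin n, StrictMono f ∧ (∀ i, f i ∈ X) ∧
      ∀ π ∈ P, ∀ r : Fin 5, ¬ ∀ i j : Fin 5,
        (π (f i) < π (f j) ↔
          (![1, 3, 5, 2, 4] : Fin 5 → ℕ) (i + r) < (![1, 3, 5, 2, 4] : Fin 5 → ℕ) (j + r))) ∨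
   (∃ f : Fin 5 → Fin n, StrictMono f ∧ (∀ i, f i ∈ X) ∧
      ∀ π ∈ P, ∀ r : Fin 5, ¬ ∀ i j : Fin 5,
        (π (f i) < π (f j) ↔
          (![1, 4, 2, 5, 3] : Fin 5 → ℕ) (i + r) < (![1, 4, 2, 5, 3] : Fin 5 → ℕ) (j + r))) ∨
   (∃ f : Fin 6 → Fin n, StrictMono f ∧ (∀ i, f i ∈ X) ∧
      ∀ π ∈ P, ∀ r : Fin 6, ¬ ∀ i j : Fin 6,
        (π (f i) < π (f j) ↔
          (![1, 2, 3, 6, 5, 4] : Fin 6 → ℕ) (i + r) < (![1, 2, 3, 6, 5, 4] : Fin 6 → ℕ) (j + r))) ∨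
   (∃ f : Fin 6 → Fin n, StrictMono f ∧ (∀ i, f i ∈ X) ∧
      ∀ π ∈ P, ∀ r : Fin 6, ¬ ∀ i j : Fin 6,
        (π (f i) < π (f j) ↔
          (![1, 4, 5, 6, 3, 2] : Fin 6 → ℕ) (i + r) < (![1, 4, 5, 6, 3, 2] : Fin 6 → ℕ) (j + r))))

/-- full position kills admissibility -/
def WitStmt : Prop := ∀ (n : ℕ) (P : Finset (Equiv.Perm (Fin n))) (X : Finset (Fin n)),
  ((∃ l m h : Fin n → ℕ, (∀ x ∈ X, ∀ y ∈ X, l x < m y ∧ m x < h y) ∧
      ((∀ x ∈ X, ∀ y ∈ X, x < y → l x < l y ∧ h x < h y) ∨ (∀ x ∈ X, ∀ y ∈ X, x < y → l y < l x ∧ h y < h x)) ∧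
      ∀ c : Fin n → Fin 3, ∃ π ∈ P, ∀ x ∈ X, ∀ y ∈ X,
        (![l x, m x, h x] : Fin 3 → ℕ) (c x) < (![l y, m y, h y] : Fin 3 → ℕ) (c y) → π x < π y) ∨
    (∀ c : Fin n → Fin 6, ∃ π ∈ P, ∀ x ∈ X, ∀ y ∈ X, c x < c y → π x < π y)) →
  ¬ AdmAt P X

/-- the result -/
def MainStmt : Prop := ∀ N : ℕ, 6 < N → ∃ C : ℝ, ∀ n : ℕ, ∀ P : Finset (Equiv.Perm (Fin n)),
  (∀ X : Finset (Fin n), X.card = N → AdmAt P X) → (P.card : ℝ) ≤ C ^ n

end Pool.Agent.CAZ
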